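import Mathlib

/-!
# The premise of the refined Quillen conjecture is never satisfied

For a number field `K`, a prime `ℓ`, a set `S` of finite places of `K` containing all places above
`ℓ`, and `n ≥ 1`, the group `GL_n` of the ring of `S`-integers has a nonzero class in degree one
mod `ℓ` cohomology which restricts to zero on every finite subgroup: it is obtained from the
determinant and a suitable homomorphism from the `S`-units to `𝔽_ℓ`, namely a valuation above `ℓ`
divided by the generator of its image. So no such group satisfies the premise of the refined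
Quillen conjecture, that every nonzero mod `ℓ` class is detected on a finite subgroup.
-/

set_option autoImplicit false

namespace Pool.Agent.Results.MP_e82a76_al.NeverDetected

open IsDedekindDomain NumberField CategoryTheory

/-- `H^k(G, 𝔽_ℓ)`: group cohomology of the (discrete) group `G` with trivial coefficients. -/
noncomputable abbrev Coh (ℓ : ℕ) (G : Type) [Group G] (k : ℕ) : ModuleCat (ZMod ℓ) :=
  groupCohomology (Rep.trivial (ZMod ℓ) G (ZMod ℓ)) k

/-- The restriction map `H^k(G, 𝔽_ℓ) → H^k(H, 𝔽_ℓ)` to a subgroup. -/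
noncomputable def res (ℓ : ℕ) {G : Type} [Group G] (H : Subgroup G) (k : ℕ) :
    Coh ℓ G k ⟶ Coh ℓ H k :=
  groupCohomology.map H.subtype (𝟙 (Rep.trivial (ZMod ℓ) H (ZMod ℓ))) k

lemma exists_class (ℓ : ℕ) {G : Type} [Group G] (f : Additive G →+ ZMod ℓ)
    (hf : ∃ g, f g ≠ 0) (ht : ∀ g : G, IsOfFinOrder g → f (Additive.ofMul g) = 0) :
    ∃ x : Coh ℓ G 1, x ≠ 0 ∧ ∀ H : Subgroup G, Finite H → res ℓ H 1 x = 0 := by
  let A : Rep (ZMod ℓ) G := Rep.trivial (ZMod ℓ) G (ZMod ℓ)
  let c : groupCohomology.cocycles₁ A := (groupCohomology.cocycles₁IsoOfIsTrivial A).inv f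
  have hc : ∀ g : G, c g = f (Additive.ofMul g) := fun g => rfl
  refine ⟨groupCohomology.H1π A c, ?_, ?_⟩
  · intro h0
    obtain ⟨g, hg⟩ := hf
    rw [groupCohomology.H1π_eq_zero_iff] at h0
    obtain ⟨y, hy⟩ := h0
    apply hg
    have := congrFun hy g.toMul
    have h2 : f g = (c : G → A) g.toMul := (hc g.toMul).symm
    rw [h2, ← this]
    simp [groupCohomology.d₀₁, A]
  · intro H hH
    have h1 : res ℓ H 1 (groupCohomology.H1π A c) =
        groupCohomology.H1π (Rep.trivial (ZMod ℓ) H (ZMod ℓ))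
          (groupCohomology.mapCocycles₁ H.subtype (𝟙 (Rep.trivial (ZMod ℓ) H (ZMod ℓ))) c) := by
      exact groupCohomology.H1π_comp_map_apply (A := A) H.subtype
        (𝟙 (Rep.trivial (ZMod ℓ) H (ZMod ℓ))) c
    rw [h1, groupCohomology.H1π_eq_zero_iff]
    refine ⟨0, ?_⟩
    rw [map_zero]
    funext h
    symm
    have h3 : IsOfFinOrder (h : G) := by
      have : IsOfFinOrder h := isOfFinOrder_of_finite h
      exact (Submonoid.isOfFinOrder_coe (H := H.toSubmonoid) (x := h)).2 this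
    exact ht _ h3


lemma exists_hom_of_int (ℓ : ℕ) [Fact ℓ.Prime] {U : Type} [CommGroup U] (ψ : Additive U →+ ℤ)
    (hψ : ψ ≠ 0) : ∃ f : Additive U →+ ZMod ℓ, (∃ g, f g ≠ 0) ∧
      ∀ u : U, IsOfFinOrder u → f (Additive.ofMul u) = 0 := by
  obtain ⟨a, ha⟩ := Int.subgroup_cyclic ψ.range
  have hmem : ∀ u, a ∣ ψ u := by
    intro u
    have : ψ u ∈ ψ.range := ⟨u, rfl⟩
    rw [ha] at this
    obtain ⟨b, hb⟩ := AddSubgroup.mem_closure_singleton.1 this
    exact ⟨b, by rw [← hb]; simp [mul_comm]⟩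
  have ha0 : a ≠ 0 := by
    rintro rfl
    apply hψ
    ext u
    exact zero_dvd_iff.1 (hmem u)
  have hin : a ∈ ψ.range := by
    rw [ha]
    exact AddSubgroup.mem_closure_singleton_self a
  obtain ⟨u1, hu1⟩ := hin
  let q : Additive U →+ ℤ :=
    { toFun := fun u => ψ u / a
      map_zero' := by simp
      map_add' := by
        intro u v
        rw [map_add, Int.add_ediv_of_dvd_left (hmem u)] }
  refine ⟨(Int.castAddHom (ZMod ℓ)).comp q, ⟨u1, ?_⟩, ?_⟩
  · have : q u1 = 1 := by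
      change ψ u1 / a = 1
      rw [hu1, Int.ediv_self ha0]
    simp [this]
  · intro u hu
    have h1 : q (Additive.ofMul u) = 0 := by
      obtain ⟨n, hn, hn1⟩ := isOfFinOrder_iff_pow_eq_one.1 hu
      have h2 : n • q (Additive.ofMul u) = 0 := by
        rw [← map_nsmul, ← ofMul_pow, hn1]
        simp
      simpa [hn.ne'] using h2
    simp [h1]

/-- the valuation at `v` on the units of the ring of `S`-integers -/
noncomputable def val {K : Type} [Field K] [NumberField K]
    (S : Set (HeightOneSpectrum (𝓞 K))) (v : HeightOneSpectrum (𝓞 K)) :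
    (S.integer K)ˣ →* Multiplicative ℤ :=
  (WithZero.unitsWithZeroEquiv (α := Multiplicative ℤ)).toMonoidHom.comp
    ((Units.map (v.valuation K : K →* WithZero (Multiplicative ℤ))).comp
      (Units.map ((S.integer K).val : (S.integer K) →* K)))

lemma val_eq_one_iff {K : Type} [Field K] [NumberField K]
    (S : Set (HeightOneSpectrum (𝓞 K))) (v : HeightOneSpectrum (𝓞 K)) (u : (S.integer K)ˣ) :
    val S v u = 1 ↔ v.valuation K (((u : S.integer K)) : K) = 1 := by
  unfold val
  simp only [MonoidHom.comp_apply]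
  constructor
  · intro h
    have := (MulEquiv.map_eq_one_iff (WithZero.unitsWithZeroEquiv (α := Multiplicative ℤ))).1 h
    have := congrArg Units.val this
    simpa using this
  · intro h
    apply (MulEquiv.map_eq_one_iff (WithZero.unitsWithZeroEquiv (α := Multiplicative ℤ))).2
    ext
    simpa using h

lemma exists_val_ne {K : Type} [Field K] [NumberField K] (ℓ : ℕ) [Fact ℓ.Prime]
    (S : Set (HeightOneSpectrum (𝓞 K)))
    (hℓ : ∀ v : HeightOneSpectrum (𝓞 K), (ℓ : 𝓞 K) ∈ v.asIdeal → v ∈ S) :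
    ∃ (v : HeightOneSpectrum (𝓞 K)) (u : (S.integer K)ˣ), val S v u ≠ 1 := by
  have hp : ℓ.Prime := Fact.out
  have h0 : (ℓ : 𝓞 K) ≠ 0 := by exact_mod_cast hp.ne_zero
  have hK0 : (ℓ : K) ≠ 0 := by exact_mod_cast hp.ne_zero
  have hnu : ¬ IsUnit (ℓ : 𝓞 K) := by
    intro hu
    have h1 : IsUnit (Algebra.norm ℤ (ℓ : 𝓞 K)) := hu.map _
    have h2 : Algebra.norm ℤ (ℓ : 𝓞 K) = (ℓ : ℤ) ^ (Module.finrank ℤ (𝓞 K)) := by
      have := Algebra.norm_algebraMap (S := 𝓞 K) (ℓ : ℤ)
      simpa using this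
    rw [h2, isUnit_pow_iff (Module.finrank_pos.ne')] at h1
    have := Int.isUnit_iff.1 h1
    have := hp.two_le
    omega
  obtain ⟨M, hM, hlM⟩ := exists_max_ideal_of_mem_nonunits hnu
  have hMb : M ≠ ⊥ := by
    rintro rfl
    exact h0 (by simpa using hlM)
  let v : HeightOneSpectrum (𝓞 K) := ⟨M, hM.isPrime, hMb⟩
  have hl : ∀ w : HeightOneSpectrum (𝓞 K), w.valuation K (ℓ : K) =
      w.valuation K (algebraMap (𝓞 K) K (ℓ : 𝓞 K)) := by
    intro w; rw [map_natCast (algebraMap (𝓞 K) K)]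
  have hone : ∀ w, w ∉ S → w.valuation K (ℓ : K) = 1 := by
    intro w hw
    rw [hl]
    refine le_antisymm (w.valuation_le_one _) ?_
    by_contra hlt
    rw [not_le] at hlt
    exact hw (hℓ w ((HeightOneSpectrum.valuation_lt_one_iff_mem w _).1 hlt))
  have hmem : (ℓ : K) ∈ S.integer K := fun w hw => (hone w hw).le
  have hmem' : (ℓ : K)⁻¹ ∈ S.integer K := fun w hw => by
    rw [map_inv₀, hone w hw, inv_one]
  let u : (S.integer K)ˣ := ⟨⟨(ℓ : K), hmem⟩, ⟨(ℓ : K)⁻¹, hmem'⟩,
    Subtype.ext (mul_inv_cancel₀ hK0), Subtype.ext (inv_mul_cancel₀ hK0)⟩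
  refine ⟨v, u, ?_⟩
  rw [Ne, val_eq_one_iff]
  change ¬ v.valuation K (ℓ : K) = 1
  rw [hl]
  exact ne_of_lt ((HeightOneSpectrum.valuation_lt_one_iff_mem v _).2 hlM)

lemma exists_det {R : Type} [CommRing R] (n : ℕ) (hn : 0 < n) (u : Rˣ) :
    ∃ g : Matrix.GeneralLinearGroup (Fin n) R, Matrix.GeneralLinearGroup.det g = u := by
  obtain ⟨m, rfl⟩ : ∃ m, n = m + 1 := ⟨n - 1, by omega⟩
  let d : Fin (m + 1) → Rˣ := Function.update 1 0 u
  refine ⟨⟨Matrix.diagonal (fun i => (d i : R)), Matrix.diagonal (fun i => ((d i)⁻¹ : Rˣ)), ?_, ?_⟩,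
    ?_⟩
  · rw [Matrix.diagonal_mul_diagonal]
    simp
  · rw [Matrix.diagonal_mul_diagonal]
    simp
  · ext
    simp only [Matrix.GeneralLinearGroup.val_det_apply, Matrix.det_diagonal]
    rw [Fin.prod_univ_succ]
    simp [d, Fin.succ_ne_zero]

/-- Let `K` be a number field, `ℓ` a prime, `S` a set of finite places of `K` (nonzero primes of
the ring of integers) containing all those above `ℓ`, and `n ≥ 1`. Then there is a nonzero class
in `H^1(GL_n(O_{K,S}), 𝔽_ℓ)` whose restriction to every finite subgroup is zero. -/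
theorem result (K : Type) [Field K] [NumberField K] (ℓ : ℕ) [Fact ℓ.Prime]
    (S : Set (HeightOneSpectrum (𝓞 K)))
    (hℓ : ∀ v : HeightOneSpectrum (𝓞 K), (ℓ : 𝓞 K) ∈ v.asIdeal → v ∈ S)
    (n : ℕ) (hn : 0 < n) :
    ∃ x : Coh ℓ (Matrix.GeneralLinearGroup (Fin n) (S.integer K)) 1, x ≠ 0 ∧
      ∀ H : Subgroup (Matrix.GeneralLinearGroup (Fin n) (S.integer K)), Finite H →
        res ℓ H 1 x = 0 := by
  obtain ⟨v, u, hu⟩ := exists_val_ne ℓ S hℓ
  let ψ : Additive (S.integer K)ˣ →+ ℤ := MonoidHom.toAdditiveLeft (val S v)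
  have hψ : ψ ≠ 0 := by
    intro h
    apply hu
    have := DFunLike.congr_fun h (Additive.ofMul u)
    exact this
  obtain ⟨f, ⟨g, hg⟩, hf⟩ := exists_hom_of_int ℓ ψ hψ
  obtain ⟨m, hm⟩ := exists_det n hn g.toMul
  refine exists_class ℓ (f.comp (MonoidHom.toAdditive
    (Matrix.GeneralLinearGroup.det (n := Fin n) (R := S.integer K)))) ⟨Additive.ofMul m, ?_⟩ ?_
  · simpa [hm] using hg
  · intro a ha
    have := hf _ (MonoidHom.isOfFinOrder
      (Matrix.GeneralLinearGroup.det (n := Fin n) (R := S.integer K)) ha)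
    simpa using this

end Pool.Agent.Results.MP_e82a76_al.NeverDetected
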